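import Pool.Agent.MP_c69980_ag.H43.Spec7

/-!
Row Param: functions of bounded degree are quotients of elements of a finite-dimensional space.
-/

set_option autoImplicit false

namespace Pool.Agent.MP_c69980_ag.H43

open Pool.Agent.MP_f3836a_nt.PK Finset

variable {L : Type} [Field L] [Algebra ℂ L] (h : FFd L)
include h

/-- The space of functions with bounded poles has a finite spanning family. -/
lemma param_span (E : Pl L → ℕ) (hE : (Function.support fun Q => (E Q : ℤ)).Finite) :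
    ∃ (N : ℕ) (e : Fin N → L), (∀ i Q, lam Q (e i) ≤ E Q) ∧
      ∀ f, (∀ Q, lam Q f ≤ E Q) → ∃ a : Fin N → ℂ, ∑ i, a i • e i = f := by
  let W : Submodule ℂ L :=
    { carrier := {f | ∀ Q, lam Q f ≤ E Q}
      add_mem' := fun a b Q => (h.lam_add Q _ _).trans (max_le (a Q) (b Q))
      zero_mem' := fun Q => by simp [lam_zero]
      smul_mem' := fun c x a Q => by
        rw [Algebra.smul_def]
        exact (h.lam_mul Q _ _).trans (by rw [h.lam_const, zero_add]; exact a Q) }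
  have : FiniteDimensional ℂ W :=
    (rLE ℂ L h.ff h.a h.b (Finsupp.ofSupportFinite _ hE) W fun f hf _ Q => by
      have := hf Q
      rw [lam] at this
      rw [Finsupp.ofSupportFinite_coe]
      omega).2.1
  refine ⟨_, fun i => Module.finBasis ℂ W i, fun i => (Module.finBasis ℂ W i).2, fun f hf =>
    ⟨(Module.finBasis ℂ W).repr ⟨f, hf⟩, ?_⟩⟩
  simpa only [map_sum, map_smul, Submodule.subtype_apply] using
    congrArg W.subtype ((Module.finBasis ℂ W).sum_repr ⟨f, hf⟩)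

lemma param_val (P : Pl L) {N : ℕ} (e : Fin N → L) (he : ∀ i, e i ∈ P.V) (a : Fin N → ℂ) :
    P.val (∑ i, a i • e i) = ∑ i, a i * P.val (e i) := by
  obtain ⟨χ, h1, h2⟩ := h.a.hom P
  have := h1 (∑ i, ⟨_, P.const (a i)⟩ * ⟨e i, he i⟩)
  rw [map_sum, sum_congr rfl fun i _ => by rw [map_mul, h1, h1, h2]] at this
  rw [this]
  simp [Algebra.smul_def]

lemma param_prod (Q : Pl L) {ι : Type} (T : Finset ι) (f : ι → L) (hf : ∀ i, f i ≠ 0) :
    Q.ord (∏ i ∈ T, f i) = ∑ i ∈ T, Q.ord (f i) := by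
  induction T using Finset.cons_induction with
  | empty => simpa using PlB.ord_one h.a Q
  | cons i T hi ih =>
    rw [prod_cons, sum_cons, h.a.mul Q _ _ (hf i) (prod_ne_zero_iff.2 fun j _ => hf j), ih]

lemma param_zero (Q : Pl L) {f g : L} (hg : g ∈ Q.V) (hf : Q.Zero f) : Q.Zero (g * f) := by
  by_cases a : g = 0
  · exact Or.inl (by simp [a])
  by_cases b : f = 0
  · exact Or.inl (by simp [b])
  have := (h.a.mem Q g a).1 hg
  have := hf.resolve_left b
  exact Or.inr (by rw [h.a.mul Q g f a b]; omega)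

/-- A function that vanishes at `P`, is a unit at `P₀` and has its poles among those of `π`. -/
lemma param_u {P₀ : Pl L} {π : L} (h0 : π ≠ 0) (h1 : P₀.ord π = 1) (P : Pl L) :
    ∃ u : L, u ≠ 0 ∧ P₀.ord u = 0 ∧ (∀ Q : Pl L, -(lam Q π : ℤ) ≤ Q.ord u) ∧
      (P.ord π = 0 → 1 ≤ P.ord u) := by
  set c := P.val π⁻¹
  have a1 : 1 + algebraMap ℂ L (-c) * π ∈ P₀.V :=
    add_mem (one_mem _) (mul_mem (P₀.const _) ((h.a.mem P₀ π h0).2 (by omega)))
  have a2 := (h.a.val P₀ _ a1 1).1 (by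
    simpa using param_zero h P₀ (P₀.const (-c)) (Or.inr (by omega : 0 < P₀.ord π)))
  have a3 := mt (h.a.val P₀ _ a1 0).1 (by rw [a2]; exact one_ne_zero)
  rw [map_zero, sub_zero, Place.Zero, not_or] at a3
  refine ⟨_, a3.1, le_antisymm (not_lt.1 a3.2) ((h.a.mem P₀ _ a3.1).1 a1), fun Q => ?_,
    fun k => ?_⟩
  · have b1 := h.lam_add Q (algebraMap ℂ L 1) (algebraMap ℂ L (-c) * π)
    have b2 := h.lam_mul Q (algebraMap ℂ L (-c)) π
    rw [h.lam_const] at b1 b2
    rw [map_one, lam] at b1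
    omega
  · have b1 := param_zero h P ((h.a.mem P π h0).2 k.ge) ((h.a.val P π⁻¹
      ((h.a.mem P _ (inv_ne_zero h0)).2 (by rw [h.ord_inv, k, neg_zero])) c).2 rfl)
    rw [show π * (π⁻¹ - algebraMap ℂ L c) = 1 + algebraMap ℂ L (-c) * π by
      rw [mul_sub, mul_inv_cancel₀ h0, map_neg]; ring] at b1
    exact b1.resolve_left a3.1

omit h in
theorem sParam : SParam := by
  classical
  intro L _ _ h P₀ d
  obtain ⟨π, h0, h1⟩ := h.a.uni P₀
  choose u u0 u1 u2 u3 using param_u h h0 h1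
  obtain ⟨N, e, e1, e2⟩ := param_span h
    (fun Q => if Q = P₀ then 0 else d * lam Q π + if Q.ord π = 0 then 0 else d)
    ((h.b.fin π).subset fun Q hQ k => hQ (by simp [k, lam]))
  have e3 : ∀ i, e i ∈ P₀.V := fun i => (h.lam_eq_zero P₀ _).1 (by simpa using e1 i P₀)
  refine ⟨N, e, e3, fun x hx hd => ?_⟩
  set T := (h.lam_fin x).toFinset
  set q := ∏ P ∈ T, u P ^ lam P x
  have q0 : q ≠ 0 := prod_ne_zero_iff.2 fun P _ => pow_ne_zero _ (u0 P)
  have q1 : ∀ Q : Pl L, Q.ord q = ∑ P ∈ T, lam P x * Q.ord (u P) := fun Q => by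
    rw [param_prod h Q T _ fun P => pow_ne_zero _ (u0 P)]
    exact sum_congr rfl fun P _ => PlB.ord_pow h.a Q _ (u0 P) _
  have q2 : P₀.ord q = 0 := by simp [q1, u1]
  have q3 : ∀ Q, lam Q q ≤ d * lam Q π := fun Q => by
    have a1 : ∑ P ∈ T, (lam P x : ℤ) * -(lam Q π : ℤ) ≤ Q.ord q :=
      q1 Q ▸ sum_le_sum fun P _ => mul_le_mul_of_nonneg_left (u2 P Q) (Int.natCast_nonneg _)
    have a2 := Nat.mul_le_mul_right (lam Q π) ((h.sum_le_deg x T).trans hd)
    rw [← sum_mul, mul_neg] at a1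
    zify at a2
    rw [lam]
    omega
  have q4 : q ∈ P₀.V := (h.a.mem P₀ q q0).2 q2.ge
  obtain ⟨a, ha⟩ := e2 q fun Q => by
    have := (h.lam_eq_zero P₀ _).2 q4
    have := q3 Q
    split_ifs with k <;> first | (subst k; omega) | omega
  obtain ⟨b, hb⟩ := e2 (x * q) fun Q => by
    have a1 := h.lam_mul Q x q
    have a2 := q3 Q
    have a3 := (h.sum_le_deg x {Q}).trans hd
    rw [sum_singleton] at a3
    split_ifs with k l
    · exact k ▸ ((h.lam_eq_zero P₀ _).2 (mul_mem hx q4)).le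
    · by_cases a4 : lam Q x = 0
      · omega
      have a5 : x ≠ 0 := fun m => a4 (m ▸ lam_zero Q)
      have a6 : (lam Q x : ℤ) * Q.ord (u Q) ≤ Q.ord q := q1 Q ▸ single_le_sum
        (f := fun P => (lam P x : ℤ) * Q.ord (u P)) (fun P _ => mul_nonneg (Int.natCast_nonneg _)
          (by simpa [lam, l] using u2 P Q)) (by simpa [T] using a4)
      have a7 := le_mul_of_one_le_right (Int.natCast_nonneg (lam Q x)) (u3 Q l)
      have a8 : -Q.ord x ≤ lam Q x := Int.self_le_toNat _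
      rw [lam, h.a.mul Q x q a5 q0]
      omega
    · omega
  refine ⟨a, b, ?_, by rw [ha, hb]⟩
  rw [← param_val h P₀ e e3, ha]
  refine mt (h.a.val P₀ q q4 0).2 ?_
  simp [Place.Zero, q0, q2]

end Pool.Agent.MP_c69980_ag.H43
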