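import Pool.Agent.MP_c69980_ag.H43.Spec10
import Pool.Agent.MP_c69980_ag.S34.Lft

/-!
Row LocS: the local sections of an etale normalisation form a finite covering.
-/

set_option autoImplicit false

namespace Pool.Agent.MP_c69980_ag.H43

open H60 Finset Filter Topology Metric Polynomial

section
variable {M : ℕ} {F L : Subfield ℂ} {y₀ y : Fin M → ℂ} {R : Subalgebra F ℂ} {ξ : R →ₐ[F] ℂ}
  {χ χ' : ℂ → ℂ} {θ : ℂ} {P : R[X]} {b : R}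

lemma locS_add {x x' : ℂ} (h : x ∈ ICs R L) (h' : x' ∈ ICs R L) : x + x' ∈ ICs R L :=
  ⟨add_mem h.1 h'.1, h.2.add h'.2⟩

lemma locS_mul {x x' : ℂ} (h : x ∈ ICs R L) (h' : x' ∈ ICs R L) : x * x' ∈ ICs R L :=
  ⟨mul_mem h.1 h'.1, h.2.mul h'.2⟩

/-- The point `ξ` of the chart ring `R` describes the local ring at `y`. -/
structure LocSD (L : Subfield ℂ) (y₀ y : Fin M → ℂ) (ξ : R →ₐ[F] ℂ) : Prop where
  le : ∀ r : R, (r : ℂ) ∈ L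
  iff : ∀ x, x ∈ ICs (OH F y₀ y) L ↔ ∃ b : R, ξ b ≠ 0 ∧ b * x ∈ ICs R L
  val : ∀ χ, Ov F L y₀ y χ → ∀ r : R, χ r = ξ r
  ex : ∀ θ P b, EtQ R L θ P b → ξ b ≠ 0 → ∀ τ, (P.map (ξ : R →+* ℂ)).IsRoot τ →
    ∃ χ, Ov F L y₀ y χ ∧ χ θ = τ

namespace LocSD

variable (h : LocSD L y₀ y ξ)
include h

lemma coe (r : R) : (r : ℂ) ∈ ICs R L := ⟨h.le r, isIntegral_algebraMap (x := r)⟩

lemma sub {x : ℂ} (hx : x ∈ ICs R L) : x ∈ ICs (OH F y₀ y) L :=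
  (h.iff x).2 ⟨1, by simp, by simpa using hx⟩

lemma ev (hχ : Ov F L y₀ y χ) (hθ : θ ∈ ICs R L) (Q : R[X]) :
    aeval θ Q ∈ ICs R L ∧ χ (aeval θ Q) = (Q.map (ξ : R →+* ℂ)).eval (χ θ) := by
  induction Q using Polynomial.induction_on with
  | C a => exact ⟨by simpa using h.coe a, by simpa using h.val χ hχ a⟩
  | add p q hp hq =>
    rw [map_add, hχ.add _ (h.sub hp.1) _ (h.sub hq.1), hp.2, hq.2, Polynomial.map_add, eval_add]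
    exact ⟨locS_add hp.1 hq.1, rfl⟩
  | monomial n a ih =>
    rw [pow_succ, ← mul_assoc, map_mul, aeval_X, hχ.mul _ (h.sub ih.1) _ (h.sub hθ), ih.2,
      Polynomial.map_mul (q := X), eval_mul, map_X, eval_X]
    exact ⟨locS_mul ih.1 hθ, rfl⟩

lemma root (hχ : Ov F L y₀ y χ) (hE : EtQ R L θ P b) :
    (P.map (ξ : R →+* ℂ)).IsRoot (χ θ) := by
  rw [IsRoot, ← (h.ev hχ hE.mem P).2, hE.root, hχ.cst 0 (zero_mem F)]

lemma form (hχ : Ov F L y₀ y χ) (hθ : θ ∈ ICs R L) {x : ℂ} {c : R} {Q : R[X]} (hb : ξ b ≠ 0)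
    (hc : ξ c ≠ 0) (hx : c * x ∈ ICs R L) (e : b * (c * x) = aeval θ Q) :
    χ x = (Q.map (ξ : R →+* ℂ)).eval (χ θ) / (ξ b * ξ c) := by
  rw [← (h.ev hχ hθ Q).2, ← e, hχ.mul _ (h.sub (h.coe b)) _ (h.sub hx),
    hχ.mul _ (h.sub (h.coe c)) _ ((h.iff x).2 ⟨c, hc, hx⟩), h.val χ hχ, h.val χ hχ]
  field_simp

lemma uniq (hχ : Ov F L y₀ y χ) (hχ' : Ov F L y₀ y χ') (hE : EtQ R L θ P b) (hb : ξ b ≠ 0)
    (e : χ θ = χ' θ) : χ = χ' := by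
  funext x
  by_cases hx : x ∈ ICs (OH F y₀ y) L
  · obtain ⟨c, hc, h1⟩ := (h.iff x).1 hx
    obtain ⟨Q, hQ⟩ := hE.gen _ h1
    rw [h.form hχ hE.mem hb hc h1 hQ, h.form hχ' hE.mem hb hc h1 hQ, e]
  · rw [hχ.out x hx, hχ'.out x hx]

end LocSD

lemma locS_poly {m : ℕ} {ξ : (Fin m → ℂ) → R →ₐ[F] ℂ} {τ : (Fin m → ℂ) → ℂ} {s : Fin m → ℂ}
    (h : ∀ r, ContDiffAt ℂ 1 (fun s => ξ s r) s) (hτ : ContDiffAt ℂ 1 τ s) (Q : R[X]) :
    ContDiffAt ℂ 1 (fun s => (Q.map (ξ s : R →+* ℂ)).eval (τ s)) s := by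
  induction Q using Polynomial.induction_on' with
  | add p q hp hq => simpa only [Polynomial.map_add, eval_add] using hp.add hq
  | monomial n a =>
    simp only [map_monomial, eval_monomial]
    exact (h a).mul (hτ.pow n)

lemma locS_mv {m : ℕ} {ι : Type} {x : (Fin m → ℂ) → ι → ℂ} {s : Fin m → ℂ}
    (h : ∀ i, ContDiffAt ℂ 1 (fun s => x s i) s) (A : MvPolynomial ι ℂ) :
    ContDiffAt ℂ 1 (fun s => MvPolynomial.eval (x s) A) s := by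
  induction A using MvPolynomial.induction_on with
  | C a => simpa using contDiffAt_const
  | add p q hp hq => simpa only [map_add] using hp.add hq
  | mul_X p i hp => simpa only [map_mul, MvPolynomial.eval_X] using hp.mul (h i)

lemma locS_cov (h2 : SRoot) {m : ℕ} {Y : (Fin m → ℂ) → Fin M → ℂ}
    {ξ : (Fin m → ℂ) → R →ₐ[F] ℂ} {s₀ : Fin m → ℂ} (hE : EtA R L)
    (h : ∀ᶠ s in 𝓝 s₀, LocSD L y₀ (Y s) (ξ s) ∧ ∀ r, ContDiffAt ℂ 1 (fun s => ξ s r) s) :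
    ∃ (ε : ℝ) (d : ℕ) (σ : Fin (d + 1) → (Fin m → ℂ) → ℂ → ℂ), 0 < ε ∧ ∀ s ∈ ball s₀ ε,
      (∀ j, Sec F L y₀ Y (σ j) s) ∧ (Function.Injective fun j => σ j s) ∧
        ∀ τ, Sec F L y₀ Y τ s → ∃ j, τ =ᶠ[𝓝 s] σ j := by
  obtain ⟨θ, P, b, hP, hb, hs⟩ := hE (ξ s₀)
  obtain ⟨d, hd⟩ := Nat.exists_eq_succ_of_ne_zero (n := P.natDegree) fun e => by
    simpa [hP.monic.natDegree_eq_zero.1 e] using hP.root
  obtain ⟨ε₀, τ, e0, hτ⟩ := h2 m (d + 1) (fun s => P.map (ξ s : R →+* ℂ)) s₀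
    (.of_forall fun s => ⟨hP.monic.map _, (hP.monic.natDegree_map _).trans hd⟩)
    (fun i => by simp only [coeff_map]; exact h.self_of_nhds.2 (P.coeff i)) hs
  obtain ⟨ε, e1, hε⟩ := Metric.eventually_nhds_iff_ball.1 ((h.and (ball_mem_nhds s₀ e0)).and
    ((h.self_of_nhds.2 b).continuousAt.eventually_ne hb))
  have hσ : ∀ j s, ∃ χ, s ∈ ball s₀ ε → Ov F L y₀ (Y s) χ ∧ χ θ = τ j s := fun j s => by
    by_cases k : s ∈ ball s₀ ε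
    · obtain ⟨⟨⟨a1, -⟩, a2⟩, a3⟩ := hε s k
      exact (a1.ex θ P b hP a3 _ (((hτ s a2).2.2 _).2 ⟨j, rfl⟩)).imp fun _ a _ => a
    · exact ⟨0, fun a => absurd a k⟩
  choose σ hσ using hσ
  refine ⟨ε, d, σ, e1, fun s hs => ⟨fun j => ?_, fun j j' e => (hτ s (hε s hs).1.2).2.1 ?_,
    fun ρ hρ => ?_⟩⟩
  · filter_upwards [isOpen_ball.mem_nhds hs] with s hs
    obtain ⟨⟨⟨a1, a4⟩, a2⟩, a3⟩ := hε s hs
    refine ⟨(hσ j s hs).1, fun x hx => ?_⟩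
    obtain ⟨c, hc, h1⟩ := (a1.iff x).1 hx
    obtain ⟨Q, hQ⟩ := hP.gen _ h1
    refine ((locS_poly a4 ((hτ s a2).1 j) Q).div ((a4 b).mul (a4 c))
      (mul_ne_zero a3 hc)).congr_of_eventuallyEq ?_
    filter_upwards [isOpen_ball.mem_nhds hs, (a4 c).continuousAt.eventually_ne hc] with s' b1 b2
    rw [(hε s' b1).1.1.1.form (hσ j s' b1).1 hP.mem (hε s' b1).2 b2 h1 hQ, (hσ j s' b1).2]
    rfl
  · exact (hσ j s hs).2.symm.trans ((congrFun e θ).trans (hσ j' s hs).2)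
  · obtain ⟨⟨⟨a1, -⟩, a2⟩, -⟩ := hε s hs
    obtain ⟨j, hj⟩ := ((hτ s a2).2.2 _).1 (a1.root hρ.self_of_nhds.1 hP)
    have b0 : ∀ᶠ s' in 𝓝 s, ∀ j', j' ≠ j → ρ s' θ - τ j' s' ≠ 0 :=
      eventually_all.2 fun j' => eventually_imp_distrib_left.2 fun k =>
        ((hρ.self_of_nhds.2 θ (a1.sub hP.mem)).sub ((hτ s a2).1 j')).continuousAt.eventually_ne
          fun e => k ((hτ s a2).2.1 ((sub_eq_zero.1 e).symm.trans hj))
    refine ⟨j, ?_⟩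
    filter_upwards [isOpen_ball.mem_nhds hs, hρ, b0] with s' b1 b2 b3
    obtain ⟨⟨⟨c1, -⟩, c2⟩, c3⟩ := hε s' b1
    obtain ⟨j', hj'⟩ := ((hτ s' c2).2.2 _).1 (c1.root b2.1 hP)
    obtain rfl : j' = j := by_contra fun k => b3 j' k (sub_eq_zero.2 hj')
    exact c1.uniq b2.1 (hσ j' s' b1).1 hP c3 (hj'.trans (hσ j' s' b1).2.symm)

end

theorem sLocS (h1 : SLocA) (h2 : SRoot) : SLocS := by
  intro t a M w Θ F L p₀ m lam g hL hS hE s₀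
  obtain ⟨β, hβ⟩ := exists_ch (g.blk (qq p₀ lam s₀))
  have c1 : ∀ c, ContDiff ℂ 1 fun s => Θ (qq p₀ lam s) c := fun c =>
    (contDiff_pi.1 (lft_c1 g.hol) c).comp (by unfold qq; fun_prop)
  have c2 : ∀ s, Ch w β (Θ (qq p₀ lam s)) → ∀ᶠ s' in 𝓝 s, Ch w β (Θ (qq p₀ lam s')) :=
    fun s hs => eventually_all.2 fun o =>
      ((c1 _).continuous.continuousAt.eventually_ne (hs o).2).mono fun _ k => ⟨(hs o).1, k⟩
  have hξ : ∀ s, ∃ ξ : RA F (co β (Θ p₀)) →ₐ[F] ℂ, Ch w β (Θ (qq p₀ lam s)) →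
      (∀ x, ξ ⟨co β (Θ p₀) x, gen_mem _ x⟩ = co β (Θ (qq p₀ lam s)) x) ∧
        LocSD L (Θ p₀) (Θ (qq p₀ lam s)) ξ := fun s => by
    by_cases k : Ch w β (Θ (qq p₀ lam s))
    · obtain ⟨-, ξ, a1, a2, a3, a4⟩ := h1 t M w F L _ _ β hL k (hS s)
      exact ⟨ξ, fun _ => ⟨a1, fun r => RA_le_field ((le_FL F _).trans hL)
        (fun x => hL (rat_FL F _ (co_mem β _ x))) r r.2, a2, a3, a4⟩⟩
    · exact ⟨Subalgebra.val _, fun a => absurd a k⟩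
  choose ξ hξ using hξ
  refine locS_cov h2 (ξ := ξ) (hE β (h1 t M w F L _ _ β hL hβ (hS s₀)).1) ?_
  filter_upwards [c2 s₀ hβ] with s hs
  refine ⟨(hξ s hs).2, fun r => ?_⟩
  obtain ⟨A, hA, e⟩ := mem_RA.1 r.2
  refine (locS_mv (x := fun s => co β (Θ (qq p₀ lam s))) (fun x => (c1 _).contDiffAt.div
    (c1 _).contDiffAt (hs x.2).2) A).congr_of_eventuallyEq ?_
  filter_upwards [c2 s hs] with s' k
  rw [hA.map_eval le_rfl (ξ s') (fun x => ⟨_, gen_mem _ x⟩) r e.symm]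
  simp only [(hξ s' k).1]

end Pool.Agent.MP_c69980_ag.H43
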